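import Pool.Agent.Q199.BB.Basic

set_option autoImplicit false

/-! Project BB (helper199), job BB2: extreme means are ergodic. -/

namespace Pool.Agent.Q238.BB

open Filter Topology Pool.Agent.Q199.BB

noncomputable section

/-- windows are increasing -/
theorem emb_castLE {n k : ℕ} (h : n ≤ k) (w : Fin n → ZMod 7) :
    ∃ v : Fin k → ZMod 7, emb k v = emb n w := by
  refine ⟨fun i => if hi : (i : ℕ) < n then w ⟨i, hi⟩ else 0, ?_⟩
  unfold emb
  rw [Finset.sum_fin_eq_sum_range, Finset.sum_fin_eq_sum_range]
  rw [← Finset.sum_subset (Finset.range_mono h)]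
  · apply Finset.sum_congr rfl
    intro i hi
    rw [Finset.mem_range] at hi
    rw [dif_pos (lt_of_lt_of_le hi h), dif_pos hi]
    dsimp only
    rw [dif_pos hi]
  · intro i hi hin
    rw [Finset.mem_range] at hi hin
    rw [dif_pos hi]
    dsimp only
    rw [dif_neg hin, Finsupp.single_zero]

/-- every element is in a window -/
theorem emb_surj (h : G) : ∃ n : ℕ, ∃ w : Fin n → ZMod 7, emb n w = h := by
  induction h using Finsupp.induction_linear with
  | zero => exact ⟨0, 0, emb_zero 0⟩
  | add f g hf hg =>
    obtain ⟨n1, w1, e1⟩ := hf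
    obtain ⟨n2, w2, e2⟩ := hg
    obtain ⟨v1, f1⟩ := emb_castLE (le_max_left n1 n2) w1
    obtain ⟨v2, f2⟩ := emb_castLE (le_max_right n1 n2) w2
    exact ⟨max n1 n2, v1 + v2, by rw [emb_add, f1, f2, e1, e2]⟩
  | single a b =>
    refine ⟨a + 1, fun i => if (i : ℕ) = a then b else 0, ?_⟩
    unfold emb
    rw [Finset.sum_eq_single (⟨a, by omega⟩ : Fin (a + 1))]
    · simp
    · intro i _ hi
      have : (i : ℕ) ≠ a := fun hh => hi (Fin.ext hh)
      dsimp only
      rw [if_neg this, Finsupp.single_zero]
    · intro hh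
      exact absurd (Finset.mem_univ _) hh

theorem avg_periodic (n : ℕ) (f : G → ℝ) (v : Fin n → ZMod 7) (y : G) :
    avg n f (y + emb n v) = avg n f y := by
  unfold avg
  congr 1
  rw [← Equiv.sum_comp (Equiv.addLeft v) (fun w => f (y + emb n w))]
  apply Finset.sum_congr rfl
  intro w _
  rw [Equiv.coe_addLeft, emb_add, add_assoc]

theorem avg_of_periodic (n : ℕ) (F : G → ℝ) (h : ∀ (w : Fin n → ZMod 7) (y : G),
    F (y + emb n w) = F y) : avg n F = F := by
  funext y
  unfold avg
  rw [Finset.sum_congr rfl (fun w _ => h w y), Finset.sum_const, Finset.card_univ,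
    Fintype.card_fun, ZMod.card, Fintype.card_fin, nsmul_eq_mul]
  push_cast
  rw [← mul_assoc, inv_mul_cancel₀ (by positivity), one_mul]

theorem avg_avg {n k : ℕ} (h : n ≤ k) (f : G → ℝ) : avg n (avg k f) = avg k f := by
  apply avg_of_periodic
  intro w y
  obtain ⟨v, hv⟩ := emb_castLE h w
  rw [← hv]
  exact avg_periodic k f v y

/-- averaging is self-adjoint -/
theorem avg_adj {m : (G → ℝ) → ℝ} (hm : IsPos m) (n : ℕ) (g f : G → ℝ) [Bdd g] [Bdd f] :
    m (fun x => g x * avg n f x) = m (fun x => avg n g x * f x) := by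
  have e1 : ∀ g f : G → ℝ, Bdd g → Bdd f → m (fun x => g x * avg n f x) =
      ((7 : ℝ) ^ n)⁻¹ * ∑ w : Fin n → ZMod 7, m (fun x => g x * f (x + emb n w)) := by
    intro g f hg hf
    have hb : ∀ w ∈ (Finset.univ : Finset (Fin n → ZMod 7)),
        Bdd (fun x => g x * f (x + emb n w)) := fun w _ => inferInstance
    have hb2 := bdd_sum (Finset.univ : Finset (Fin n → ZMod 7))
      (fun w x => g x * f (x + emb n w)) hb
    rw [← hm.sum _ _ hb, ← hm.smul _ _ hb2]
    congr 1
    funext x
    unfold avg
    rw [Finset.mul_sum, Finset.mul_sum, Finset.mul_sum]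
    apply Finset.sum_congr rfl
    intro w _
    ring
  have e2 : m (fun x => avg n g x * f x) = m (fun x => f x * avg n g x) := by
    congr 1
    funext x
    ring
  rw [e2, e1 g f inferInstance inferInstance, e1 f g inferInstance inferInstance]
  congr 1
  rw [← Equiv.sum_comp (Equiv.neg (Fin n → ZMod 7)) (fun w => m (fun x => f x * g (x + emb n w)))]
  apply Finset.sum_congr rfl
  intro w _
  have e3 : emb n (-w) = -emb n w := by
    have h1 := emb_add n (-w) w
    rw [neg_add_cancel, emb_zero] at h1
    exact eq_neg_of_add_eq_zero_left h1.symm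
  rw [Equiv.neg_apply, e3]
  have h2 := hm.shift (emb n w) (fun x => f x * g (x + -emb n w)) inferInstance
  rw [← h2]
  congr 1
  funext x
  rw [add_neg_cancel_right]
  ring

/-- the case of values in the unit interval -/
theorem erg_unit {m : (G → ℝ) → ℝ} (hm : IsMean m) (hE : Ext m) (f : G → ℝ) [hf : Bdd f]
    (h0 : ∀ x, 0 ≤ f x) (h1 : ∀ x, f x ≤ 1) :
    Tendsto (fun n => m (fun y => (avg n f y - m f) ^ 2)) atTop (𝓝 0) := by
  classical
  have hp := hm.toIsPos
  have ha0 : ∀ n x, 0 ≤ avg n f x := by
    intro n x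
    unfold avg
    exact mul_nonneg (by positivity) (Finset.sum_nonneg fun w _ => h0 _)
  have ha1 : ∀ n x, avg n f x ≤ 1 := by
    intro n x
    unfold avg
    rw [inv_mul_le_iff₀ (by positivity), mul_one]
    calc ∑ w : Fin n → ZMod 7, f (x + emb n w) ≤ ∑ w : Fin n → ZMod 7, (1 : ℝ) :=
          Finset.sum_le_sum fun w _ => h1 _
      _ = (7 : ℝ) ^ n := by
          rw [Finset.sum_const, Finset.card_univ, Fintype.card_fun, ZMod.card, Fintype.card_fin,
            nsmul_eq_mul, mul_one]
          push_cast
          rfl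
  set E : ℕ → ℝ := fun n => m (fun x => f x * avg n f x) with hEdef
  have hE1 : ∀ n k, n ≤ k → m (fun x => avg n f x * avg k f x) = E k := by
    intro n k hnk
    rw [hEdef]
    have h2 := avg_adj hp n (avg k f) f
    rw [avg_avg hnk] at h2
    calc m (fun x => avg n f x * avg k f x) = m (fun x => avg k f x * avg n f x) := by
          congr 1
          funext x
          ring
      _ = m (fun x => avg k f x * f x) := h2
      _ = m (fun x => f x * avg k f x) := by
          congr 1
          funext x
          ring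
  have hdiff : ∀ n k, n ≤ k → m (fun x => (avg n f x - avg k f x) ^ 2) = E n - E k := by
    intro n k hnk
    have e1 : (fun x => (avg n f x - avg k f x) ^ 2) = fun x =>
        (avg n f x * avg n f x - 2 * (avg n f x * avg k f x)) + avg k f x * avg k f x := by
      funext x
      ring
    rw [e1, hp.add', hp.sub, hp.smul', hE1 n n le_rfl, hE1 n k hnk, hE1 k k le_rfl]
    ring
  have hanti : Antitone E := by
    intro n k hnk
    have h2 := hp.nonneg (fun x => (avg n f x - avg k f x) ^ 2) inferInstance (fun x => sq_nonneg _)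
    rw [hdiff n k hnk] at h2
    linarith
  have hEb : ∀ n, 0 ≤ E n := fun n =>
    hp.nonneg _ inferInstance fun x => mul_nonneg (h0 x) (ha0 n x)
  have hbdd : BddBelow (Set.range E) := ⟨0, by rintro _ ⟨n, rfl⟩; exact hEb n⟩
  have hEc : CauchySeq E := (tendsto_atTop_ciInf hanti hbdd).cauchySeq
  -- convergence of the pairings
  have hcau : ∀ g : G → ℝ, Bdd g → CauchySeq (fun n => m (fun x => g x * avg n f x)) := by
    intro g hg
    obtain ⟨C, hC⟩ := hg.out
    rw [Metric.cauchySeq_iff']
    intro ε hε
    set D : ℝ := m (fun x => g x ^ 2) + 1 with hD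
    have hD0 : 0 < D := by
      have := hp.nonneg (fun x => g x ^ 2) inferInstance (fun x => sq_nonneg _)
      linarith
    rw [Metric.cauchySeq_iff'] at hEc
    obtain ⟨N, hN⟩ := hEc (ε ^ 2 / D) (by positivity)
    refine ⟨N, fun n hn => ?_⟩
    have h2 := hN n hn
    rw [Real.dist_eq] at h2 ⊢
    have h3 : m (fun x => g x * avg n f x) - m (fun x => g x * avg N f x) =
        -m (fun x => g x * (avg N f x - avg n f x)) := by
      have e1 : (fun x => g x * (avg N f x - avg n f x)) =
          fun x => g x * avg N f x - g x * avg n f x := by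
        funext x
        ring
      rw [e1, hp.sub]
      ring
    rw [h3, abs_neg]
    have h4 := hp.cauchy g (fun x => avg N f x - avg n f x)
    rw [hdiff N n hn] at h4
    have h5 : E N - E n < ε ^ 2 / D := by
      have h6 := hanti hn
      rw [abs_of_nonpos (by linarith)] at h2
      linarith
    have h6 : 0 ≤ m (fun x => g x ^ 2) :=
      hp.nonneg (fun x => g x ^ 2) inferInstance (fun x => sq_nonneg _)
    have h7 : m (fun x => g x ^ 2) * (E N - E n) < ε ^ 2 := by
      calc m (fun x => g x ^ 2) * (E N - E n) ≤ D * (E N - E n) := by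
            apply mul_le_mul_of_nonneg_right (by linarith)
            linarith [hanti hn]
        _ < D * (ε ^ 2 / D) := mul_lt_mul_of_pos_left h5 hD0
        _ = ε ^ 2 := by field_simp
    exact abs_lt_of_sq_lt_sq (lt_of_le_of_lt h4 h7) hε.le
  -- the functional
  set m1 : (G → ℝ) → ℝ := fun g => limUnder atTop (fun n => m (fun x => g x * avg n f x)) with hm1
  have hlim : ∀ g : G → ℝ, Bdd g → Tendsto (fun n => m (fun x => g x * avg n f x)) atTop
      (𝓝 (m1 g)) := by
    intro g hg
    exact (hcau g hg).tendsto_limUnder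
  have hpos1 : IsPos m1 := by
    refine { add := ?_, smul := ?_, nonneg := ?_, shift := ?_ }
    · intro g h hg hh
      refine tendsto_nhds_unique (hlim (fun x => g x + h x) inferInstance) ?_
      have h2 := (hlim g hg).add (hlim h hh)
      refine h2.congr ?_
      intro n
      rw [← hp.add' (fun x => g x * avg n f x) (fun x => h x * avg n f x)]
      congr 1
      funext x
      ring
    · intro c g hg
      refine tendsto_nhds_unique (hlim (fun x => c * g x) inferInstance) ?_
      refine ((hlim g hg).const_mul c).congr ?_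
      intro n
      rw [← hp.smul' c (fun x => g x * avg n f x)]
      congr 1
      funext x
      ring
    · intro g hg hg0
      refine ge_of_tendsto' (hlim g hg) ?_
      intro n
      exact hp.nonneg _ inferInstance fun x => mul_nonneg (hg0 x) (ha0 n x)
    · intro h g hg
      refine tendsto_nhds_unique (hlim (fun x => g (x + h)) inferInstance) ?_
      refine (hlim g hg).congr' ?_
      obtain ⟨n0, w0, hw0⟩ := emb_surj h
      filter_upwards [eventually_ge_atTop n0] with n hn
      obtain ⟨v, hv⟩ := emb_castLE hn w0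
      have h2 := hp.shift h (fun x => g x * avg n f x) inferInstance
      rw [← h2]
      congr 1
      funext x
      rw [← hw0, ← hv, avg_periodic n f v x]
  have hle1 : ∀ g : G → ℝ, Bdd g → (∀ x, 0 ≤ g x) → m1 g ≤ m g := by
    intro g hg hg0
    refine le_of_tendsto' (hlim g hg) ?_
    intro n
    apply hp.mono
    intro x
    exact mul_le_of_le_one_right (hg0 x) (ha1 n x)
  have hext := hE m1 hpos1 hle1
  have hmass : m1 (fun _ => 1) = m f := by
    refine tendsto_nhds_unique (hlim (fun _ => 1) inferInstance) ?_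
    have : ∀ n, m (fun x => 1 * avg n f x) = m f := by
      intro n
      rw [← hm.avg_eq n f]
      congr 1
      funext x
      rw [one_mul]
    simp_rw [this]
    exact tendsto_const_nhds
  have hfin := hlim f hf
  rw [hext f hf, hmass] at hfin
  -- conclusion
  have hval : ∀ n, m (fun y => (avg n f y - m f) ^ 2) = E n - m f * m f := by
    intro n
    have e1 : (fun y => (avg n f y - m f) ^ 2) = fun y =>
        (avg n f y * avg n f y - (2 * m f) * avg n f y) + m f * m f := by
      funext x
      ring
    rw [e1, hp.add', hp.sub, hp.smul', hm.const, hE1 n n le_rfl, hm.avg_eq n f]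
    ring
  simp_rw [hval]
  have h2 := hfin.sub_const (m f * m f)
  rw [sub_self] at h2
  exact h2

theorem tErg : SErg := by
  intro m hm hE f hf
  have hp := hm.toIsPos
  obtain ⟨C, hC⟩ := hf.out
  set D : ℝ := 2 * (|C| + 1) with hD
  have hD0 : 0 < D := by positivity
  set g : G → ℝ := fun x => D⁻¹ * (f x + D / 2) with hg
  have hDc : Bdd (fun _ : G => D / 2) := bdd_const (D / 2)
  have hfD : Bdd (fun x => f x + D / 2) := bdd_add f (fun _ => D / 2)
  have hgb : Bdd g := bdd_mul (fun _ => D⁻¹) (fun x => f x + D / 2)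
  have h0 : ∀ x, 0 ≤ g x := by
    intro x
    apply mul_nonneg (inv_nonneg.2 hD0.le)
    have h1 := (abs_le.1 (hC x)).1
    have h2 := le_abs_self C
    rw [hD]
    linarith
  have h1 : ∀ x, g x ≤ 1 := by
    intro x
    simp only [hg]
    rw [inv_mul_le_iff₀ hD0, mul_one]
    have h1 := (abs_le.1 (hC x)).2
    have h2 := le_abs_self C
    rw [hD]
    linarith
  have h2 := erg_unit hm hE g h0 h1
  have hmg : m g = D⁻¹ * (m f + D / 2) := by
    simp only [hg]
    rw [hp.smul' D⁻¹ (fun x => f x + D / 2), hp.add' f (fun _ => D / 2), hm.const]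
  have havg : ∀ n y, avg n g y = D⁻¹ * (avg n f y + D / 2) := by
    intro n y
    unfold avg
    simp only [hg]
    rw [← Finset.mul_sum, Finset.sum_add_distrib, Finset.sum_const, Finset.card_univ,
      Fintype.card_fun, ZMod.card, Fintype.card_fin, nsmul_eq_mul]
    push_cast
    field_simp
  have h3 : ∀ n, m (fun y => (avg n f y - m f) ^ 2) = D ^ 2 * m (fun y => (avg n g y - m g) ^ 2) := by
    intro n
    rw [← hp.smul' (D ^ 2) (fun y => (avg n g y - m g) ^ 2)]
    congr 1
    funext y
    rw [havg, hmg]
    field_simp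
    ring
  simp_rw [h3]
  have h4 := h2.const_mul (D ^ 2)
  rw [mul_zero] at h4
  exact h4

end

end Pool.Agent.Q238.BB
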