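import Pool.Agent.Q199.BB.Basic

set_option autoImplicit false

/-! Project BB (helper199), job BB1: extreme means. -/

namespace Pool.Agent.Q238.BB

open Filter Topology Pool.Agent.Q199.BB

noncomputable section

open Classical in
/-- modification on the unbounded functions -/
def md (m : (G → ℝ) → ℝ) (f : G → ℝ) : ℝ := if Bdd f then m f else 0

theorem md_eq (m : (G → ℝ) → ℝ) (f : G → ℝ) (hf : Bdd f) : md m f = m f := by
  unfold md
  rw [if_pos hf]

theorem md_ne (m : (G → ℝ) → ℝ) (f : G → ℝ) (hf : ¬ Bdd f) : md m f = 0 := by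
  unfold md
  rw [if_neg hf]

theorem md_pos {m : (G → ℝ) → ℝ} (hm : IsPos m) : IsPos (md m) where
  add f g hf hg := by
    rw [md_eq _ _ (bdd_add f g), md_eq _ _ hf, md_eq _ _ hg, hm.add f g hf hg]
  smul c f hf := by
    rw [md_eq _ _ (bdd_mul (fun _ => c) f), md_eq _ _ hf, hm.smul c f hf]
  nonneg f hf h := by
    rw [md_eq _ _ hf]
    exact hm.nonneg f hf h
  shift h f hf := by
    rw [md_eq _ _ (bdd_shift f h), md_eq _ _ hf, hm.shift h f hf]

theorem md_mean {m : (G → ℝ) → ℝ} (hm : IsMean m) : IsMean (md m) where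
  toIsPos := md_pos hm.toIsPos
  one := by
    rw [md_eq _ _ (bdd_const 1)]
    exact hm.one

/-- a positive functional is determined by its mass if it vanishes -/
theorem zero_of_mass {m : (G → ℝ) → ℝ} (hm : IsPos m) (h : m (fun _ => 1) = 0) (f : G → ℝ)
    (hf : Bdd f) : m f = 0 := by
  obtain ⟨C, hC⟩ := hf.out
  have h1 : ∀ c : ℝ, m (fun _ => c) = 0 := by
    intro c
    have := hm.smul c (fun _ => 1) (bdd_const 1)
    simp only [mul_one, h, mul_zero] at this
    exact this
  have h2 : m f ≤ m (fun _ => C) := hm.mono f (fun _ => C) (fun x => (le_abs_self _).trans (hC x))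
  have h3 : m (fun _ => -C) ≤ m f := hm.mono (fun _ => -C) f (fun x => (abs_le.1 (hC x)).1)
  rw [h1] at h2 h3
  exact le_antisymm h2 h3

/-- the difference of a positive functional and a smaller one -/
theorem pos_sub {m m1 : (G → ℝ) → ℝ} (hm : IsPos m) (h1 : IsPos m1)
    (hle : ∀ f : G → ℝ, Bdd f → (∀ x, 0 ≤ f x) → m1 f ≤ m f) : IsPos (fun f => m f - m1 f) where
  add f g hf hg := by
    rw [hm.add f g hf hg, h1.add f g hf hg]
    ring
  smul c f hf := by
    rw [hm.smul c f hf, h1.smul c f hf]
    ring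
  nonneg f hf h := sub_nonneg.2 (hle f hf h)
  shift h f hf := by
    rw [hm.shift h f hf, h1.shift h f hf]

theorem pos_smul {m : (G → ℝ) → ℝ} (hm : IsPos m) {c : ℝ} (hc : 0 ≤ c) :
    IsPos (fun f => c * m f) where
  add f g hf hg := by
    rw [hm.add f g hf hg]
    ring
  smul a f hf := by
    rw [hm.smul a f hf]
    ring
  nonneg f hf h := mul_nonneg hc (hm.nonneg f hf h)
  shift h f hf := by
    rw [hm.shift h f hf]

/-- the compact set of the means -/
def KS : Set ((G → ℝ) → ℝ) := {m | IsMean m ∧ ∀ f, ¬ Bdd f → m f = 0}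

theorem md_mem {m : (G → ℝ) → ℝ} (hm : IsMean m) : md m ∈ KS := ⟨md_mean hm, md_ne m⟩

theorem KS_closed : IsClosed KS := by
  have h : KS = (⋂ (f : G → ℝ) (g : G → ℝ) (_ : Bdd f) (_ : Bdd g),
        {m : (G → ℝ) → ℝ | m (fun x => f x + g x) = m f + m g}) ∩
      ((⋂ (c : ℝ) (f : G → ℝ) (_ : Bdd f), {m : (G → ℝ) → ℝ | m (fun x => c * f x) = c * m f}) ∩
      ((⋂ (f : G → ℝ) (_ : Bdd f) (_ : ∀ x, 0 ≤ f x), {m : (G → ℝ) → ℝ | 0 ≤ m f}) ∩
      ((⋂ (h : G) (f : G → ℝ) (_ : Bdd f), {m : (G → ℝ) → ℝ | m (fun x => f (x + h)) = m f}) ∩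
      ({m : (G → ℝ) → ℝ | m (fun _ => 1) = 1} ∩
      (⋂ (f : G → ℝ) (_ : ¬ Bdd f), {m : (G → ℝ) → ℝ | m f = 0}))))) := by
    ext m
    simp only [KS, Set.mem_ofPred_eq, Set.mem_inter_iff, Set.mem_iInter]
    constructor
    · rintro ⟨h1, h2⟩
      exact ⟨h1.add, h1.smul, h1.nonneg, h1.shift, h1.one, h2⟩
    · rintro ⟨h1, h2, h3, h4, h5, h6⟩
      exact ⟨{ add := h1, smul := h2, nonneg := h3, shift := h4, one := h5 }, h6⟩
  rw [h]
  refine IsClosed.inter ?_ (IsClosed.inter ?_ (IsClosed.inter ?_ (IsClosed.inter ?_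
    (IsClosed.inter ?_ ?_))))
  · refine isClosed_iInter fun f => isClosed_iInter fun g => isClosed_iInter fun _ =>
      isClosed_iInter fun _ => ?_
    exact isClosed_eq (continuous_apply _)
      (Continuous.add (f := fun m : (G → ℝ) → ℝ => m f) (g := fun m : (G → ℝ) → ℝ => m g)
        (continuous_apply f) (continuous_apply g))
  · refine isClosed_iInter fun c => isClosed_iInter fun f => isClosed_iInter fun _ => ?_
    exact isClosed_eq (continuous_apply _) (continuous_const.mul (continuous_apply _))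
  · refine isClosed_iInter fun f => isClosed_iInter fun _ => isClosed_iInter fun _ => ?_
    exact isClosed_le continuous_const (continuous_apply _)
  · refine isClosed_iInter fun h => isClosed_iInter fun f => isClosed_iInter fun _ => ?_
    exact isClosed_eq (continuous_apply _) (continuous_apply _)
  · exact isClosed_eq (continuous_apply _) continuous_const
  · refine isClosed_iInter fun f => isClosed_iInter fun _ => ?_
    exact isClosed_eq (continuous_apply _) continuous_const

theorem KS_compact : IsCompact KS := by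
  classical
  set Bd : (G → ℝ) → ℝ := fun f => if h : Bdd f then Classical.choose h.out else 0 with hBd
  have hsub : KS ⊆ Set.pi Set.univ (fun f => Set.Icc (-Bd f) (Bd f)) := by
    rintro m ⟨h1, h2⟩ f _
    by_cases h : Bdd f
    · have h3 := Classical.choose_spec h.out
      have h4 : |m f| ≤ Bd f := by
        simp only [hBd]
        rw [dif_pos h]
        exact h1.abs_le h3
      exact abs_le.1 h4
    · have h3 : Bd f = 0 := by
        simp only [hBd]
        rw [dif_neg h]
      have h4 : m f ∈ Set.Icc (-Bd f) (Bd f) := by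
        rw [h2 f h, h3]
        simp
      exact h4
  exact (isCompact_univ_pi fun f => isCompact_Icc).of_isClosed_subset KS_closed hsub

theorem tExt : SExt := by
  intro m hm F hF
  classical
  have hKne : KS.Nonempty := ⟨md m, md_mem hm⟩
  obtain ⟨m0, hm0, hmax⟩ := KS_compact.exists_isMaxOn hKne
    (f := fun m : (G → ℝ) → ℝ => m F) (continuous_apply F).continuousOn
  have hmax' : ∀ μ ∈ KS, μ F ≤ m0 F := fun μ hμ => hmax hμ
  set K' : Set ((G → ℝ) → ℝ) := KS ∩ {μ | μ F = m0 F} with hK'
  have hK'c : IsCompact K' := KS_compact.inter_right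
    (isClosed_eq (continuous_apply _) continuous_const)
  obtain ⟨m', hm'⟩ := hK'c.extremePoints_nonempty ⟨m0, hm0, rfl⟩
  rw [mem_extremePoints] at hm'
  obtain ⟨⟨⟨hmean, hunb⟩, hval⟩, hext⟩ := hm'
  have hval' : m' F = m0 F := hval
  refine ⟨m', hmean, ?_, ?_⟩
  · intro m1 hp hle f hf
    set c := m1 (fun _ => 1) with hc
    have hc0 : 0 ≤ c := hp.nonneg _ (bdd_const 1) (fun _ => zero_le_one)
    have hc1 : c ≤ 1 := by
      have := hle (fun _ => 1) (bdd_const 1) (fun _ => zero_le_one)
      rwa [hmean.one] at this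
    rcases hc0.eq_or_lt with h0 | h0
    · rw [← h0, zero_mul]
      exact zero_of_mass hp h0.symm f hf
    rcases hc1.eq_or_lt with h1 | h1
    · have h2 := zero_of_mass (pos_sub hmean.toIsPos hp hle) (by
        simp only [hmean.one, ← hc, h1, sub_self]) f hf
      rw [h1, one_mul]
      linarith
    · have hcc : 0 < 1 - c := by linarith
      set ma : (G → ℝ) → ℝ := md (fun f => c⁻¹ * m1 f) with hma
      set mb : (G → ℝ) → ℝ := md (fun f => (1 - c)⁻¹ * (m' f - m1 f)) with hmb
      have hma1 : IsMean (fun f => c⁻¹ * m1 f) :=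
        { toIsPos := pos_smul hp (inv_nonneg.2 hc0)
          one := by rw [← hc]; exact inv_mul_cancel₀ h0.ne' }
      have hmb1 : IsMean (fun f => (1 - c)⁻¹ * (m' f - m1 f)) :=
        { toIsPos := pos_smul (pos_sub hmean.toIsPos hp hle) (inv_nonneg.2 hcc.le)
          one := by rw [← hc, hmean.one]; exact inv_mul_cancel₀ hcc.ne' }
      have ha : ma ∈ KS := md_mem hma1
      have hb : mb ∈ KS := md_mem hmb1
      have hcomb : ∀ f, Bdd f → c * ma f + (1 - c) * mb f = m' f := by
        intro f hf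
        rw [hma, hmb, md_eq _ _ hf, md_eq _ _ hf]
        field_simp
        ring
      have hcombF := hcomb F hF
      have haF := hmax' ma ha
      have hbF := hmax' mb hb
      rw [hval'] at hcombF
      have haF' : ma F = m0 F := by nlinarith
      have hbF' : mb F = m0 F := by nlinarith
      have hseg : m' ∈ openSegment ℝ ma mb := by
        refine ⟨c, 1 - c, h0, hcc, by ring, ?_⟩
        funext f
        simp only [Pi.add_apply, Pi.smul_apply, smul_eq_mul]
        by_cases hf' : Bdd f
        · exact hcomb f hf'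
        · rw [hunb f hf', hma, hmb, md_ne _ _ hf', md_ne _ _ hf']
          ring
      have h2 := hext ma ⟨ha, haF'⟩ mb ⟨hb, hbF'⟩ hseg
      have h3 : ma f = m' f := by
        have h4 : ma = m' := h2.1
        rw [h4]
      rw [← h3, hma, md_eq _ _ hf, ← mul_assoc, mul_inv_cancel₀ h0.ne', one_mul]
  · rw [hval']
    have h1 := hmax' (md m) (md_mem hm)
    rwa [md_eq _ _ hF] at h1

end

end Pool.Agent.Q238.BB
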