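import Pool.Agent.Q199.BB.Basic

set_option autoImplicit false

/-! Project BB (helper199), job BB17: from functionals to densities along Folner sequences. -/

namespace Pool.Agent.Q238.BB

open Filter Topology Pool.Agent.Q199.BB

noncomputable section

open Classical

theorem eight_smul (x : G) : 8 • x = x := by
  ext i
  have h : ∀ a : ZMod 7, 8 • a = a := by decide
  rw [Finsupp.smul_apply]
  exact h _

theorem two_four (x : G) : 2 • (4 • x) = x := by
  rw [← mul_smul]
  exact eight_smul x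

theorem four_two (x : G) : 4 • (2 • x) = x := by
  rw [← mul_smul]
  exact eight_smul x

theorem two_two (x : G) : 2 • (2 • x) = 4 • x := by
  rw [← mul_smul]
  norm_num

theorem card_inst (s : Finset G) (p : G → Prop) (d1 d2 : DecidablePred p) :
    (@Finset.filter G p d1 s).card = (@Finset.filter G p d2 s).card := by
  have h : d1 = d2 := Subsingleton.elim _ _
  rw [h]

theorem two_inj : Function.Injective (fun x : G => 2 • x) := by
  intro x y h
  have h1 : 4 • (2 • x) = 4 • (2 • y) := congrArg (fun z : G => 4 • z) h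
  rwa [four_two, four_two] at h1

theorem four_inj : Function.Injective (fun x : G => 4 • x) := by
  intro x y h
  have h1 : 2 • (4 • x) = 2 • (4 • y) := congrArg (fun z : G => 2 • z) h
  rwa [two_four, two_four] at h1

/-- the two parts -/
def PP (Φ : Finset G) : Finset G := Φ.filter (fun x => 2 • x ∈ Φ ∧ 4 • x ∈ Φ)
def QQ (Φ : Finset G) : Finset G := Φ.filter (fun x => 2 • x ∈ Φ ∧ 4 • x ∉ Φ)

theorem mem_PP {Φ : Finset G} {x : G} : x ∈ PP Φ ↔ x ∈ Φ ∧ 2 • x ∈ Φ ∧ 4 • x ∈ Φ := by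
  unfold PP
  rw [Finset.mem_filter]

theorem mem_QQ {Φ : Finset G} {x : G} : x ∈ QQ Φ ↔ x ∈ Φ ∧ 2 • x ∈ Φ ∧ 4 • x ∉ Φ := by
  unfold QQ
  rw [Finset.mem_filter]

theorem two_PP {Φ : Finset G} {x : G} (h : x ∈ PP Φ) : 2 • x ∈ PP Φ := by
  rw [mem_PP] at h ⊢
  rw [two_two, four_two]
  exact ⟨h.2.1, h.2.2, h.1⟩

theorem four_PP {Φ : Finset G} {x : G} (h : x ∈ PP Φ) : 4 • x ∈ PP Φ := by
  have := two_PP (two_PP h)
  rwa [two_two] at this

theorem sum_two_PP (Φ : Finset G) (f : G → ℝ) :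
    ∑ x ∈ PP Φ, f (2 • x) = ∑ x ∈ PP Φ, f x := by
  refine Finset.sum_nbij' (fun x => 2 • x) (fun x => 4 • x) ?_ ?_ ?_ ?_ ?_
  · intro x hx
    exact two_PP hx
  · intro x hx
    exact four_PP hx
  · intro x _
    exact four_two x
  · intro x _
    exact two_four x
  · intro x _
    rfl

theorem count (Φ : Finset G) (A : Set G) (ε : ℝ) (hε : 0 ≤ ε)
    (hP : ∑ x ∈ PP Φ, (chi A x + chi A (2 • x) + chi A (4 • x)) ≤ (PP Φ).card + ε * Φ.card)
    (hQ : ∑ x ∈ QQ Φ, (chi A x + chi A (2 • x) + chi A (4 • x)) ≤ (QQ Φ).card + ε * Φ.card) :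
    ∑ x ∈ Φ, chi A x ≤ Φ.card - 2 / 3 * ((Φ.filter (fun x => 2 • x ∈ Φ)).card : ℝ) +
      2 * ε * Φ.card := by
  set R : Finset G := (QQ Φ).image (fun x => 2 • x) with hR
  have hRcard : R.card = (QQ Φ).card := Finset.card_image_of_injective _ two_inj
  have hRsum : ∑ x ∈ R, chi A x = ∑ x ∈ QQ Φ, chi A (2 • x) := by
    rw [hR, Finset.sum_image (fun x _ y _ h => two_inj h)]
  have hmR : ∀ x, x ∈ R → x ∈ Φ ∧ 4 • x ∈ Φ ∧ 2 • x ∉ Φ := by
    intro x hx
    rw [hR, Finset.mem_image] at hx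
    obtain ⟨z, hz, rfl⟩ := hx
    rw [mem_QQ] at hz
    rw [four_two, two_two]
    exact ⟨hz.2.1, hz.1, hz.2.2⟩
  have hd1 : Disjoint (PP Φ) (QQ Φ) := by
    rw [Finset.disjoint_left]
    intro x hx hy
    exact (mem_QQ.1 hy).2.2 (mem_PP.1 hx).2.2
  have hd2 : Disjoint (PP Φ ∪ QQ Φ) R := by
    rw [Finset.disjoint_left]
    intro x hx hy
    have h1 := (hmR x hy).2.2
    rcases Finset.mem_union.1 hx with h | h
    · exact h1 (mem_PP.1 h).2.1
    · exact h1 (mem_QQ.1 h).2.1
  set S : Finset G := (PP Φ ∪ QQ Φ) ∪ R with hS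
  have hSsub : S ⊆ Φ := by
    intro x hx
    rcases Finset.mem_union.1 hx with h | h
    · rcases Finset.mem_union.1 h with h | h
      · exact (mem_PP.1 h).1
      · exact (mem_QQ.1 h).1
    · exact (hmR x h).1
  have hScard : (S.card : ℝ) = (PP Φ).card + (QQ Φ).card + (QQ Φ).card := by
    rw [hS, Finset.card_union_of_disjoint hd2, Finset.card_union_of_disjoint hd1, hRcard]
    push_cast
    ring
  have hSsum : ∑ x ∈ S, chi A x = ∑ x ∈ PP Φ, chi A x + ∑ x ∈ QQ Φ, chi A x +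
      ∑ x ∈ QQ Φ, chi A (2 • x) := by
    rw [hS, Finset.sum_union hd2, Finset.sum_union hd1, hRsum]
  have hrest : ∑ x ∈ Φ, chi A x ≤ ∑ x ∈ S, chi A x + (Φ.card - S.card) := by
    rw [← Finset.sum_sdiff hSsub]
    have h1 : ∑ x ∈ Φ \ S, chi A x ≤ ((Φ \ S).card : ℝ) := by
      calc ∑ x ∈ Φ \ S, chi A x ≤ ∑ x ∈ Φ \ S, (1 : ℝ) :=
            Finset.sum_le_sum fun x _ => chi_le_one A x
        _ = _ := by simp
    have h2 : ((Φ \ S).card : ℝ) = Φ.card - S.card := by
      rw [Finset.card_sdiff_of_subset hSsub, Nat.cast_sub (Finset.card_le_card hSsub)]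
    linarith
  have hPs : 3 * ∑ x ∈ PP Φ, chi A x ≤ (PP Φ).card + ε * Φ.card := by
    rw [Finset.sum_add_distrib, Finset.sum_add_distrib] at hP
    have h1 := sum_two_PP Φ (chi A)
    have h2 := sum_two_PP Φ (fun x => chi A (2 • x))
    simp only [two_two] at h2
    linarith
  have hQs : ∑ x ∈ QQ Φ, chi A x + ∑ x ∈ QQ Φ, chi A (2 • x) ≤ (QQ Φ).card + ε * Φ.card := by
    rw [Finset.sum_add_distrib, Finset.sum_add_distrib] at hQ
    have h1 : 0 ≤ ∑ x ∈ QQ Φ, chi A (4 • x) := Finset.sum_nonneg fun x _ => chi_nonneg A _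
    linarith
  have hfil : ((Φ.filter (fun x => 2 • x ∈ Φ)).card : ℝ) = (PP Φ).card + (QQ Φ).card := by
    have h1 : Φ.filter (fun x => 2 • x ∈ Φ) = PP Φ ∪ QQ Φ := by
      ext x
      rw [Finset.mem_filter, Finset.mem_union, mem_PP, mem_QQ]
      tauto
    rw [h1, Finset.card_union_of_disjoint hd1]
    push_cast
    rfl
  have h3 : 0 ≤ ε * (Φ.card : ℝ) := by positivity
  have h4 : (0 : ℝ) ≤ (QQ Φ).card := by positivity
  rw [hfil]
  linarith

/-- the boundary -/
def bd (Φ : Finset G) (g : G) : ℕ := (Φ.filter (fun x => x - g ∉ Φ)).card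

theorem pull_two (Φ : Finset G) (g : G) (S : Finset G) (h : ∀ x ∈ S, 2 • x ∈ Φ ∧ 2 • x - g ∉ Φ) :
    S.card ≤ bd Φ g := by
  unfold bd
  rw [← Finset.card_image_of_injective S two_inj]
  apply Finset.card_le_card
  intro y hy
  rw [Finset.mem_image] at hy
  obtain ⟨x, hx, rfl⟩ := hy
  rw [Finset.mem_filter]
  exact h x hx

theorem pull_four (Φ : Finset G) (g : G) (S : Finset G) (h : ∀ x ∈ S, 4 • x ∈ Φ ∧ 4 • x - g ∉ Φ) :
    S.card ≤ bd Φ g := by
  unfold bd
  rw [← Finset.card_image_of_injective S four_inj]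
  apply Finset.card_le_card
  intro y hy
  rw [Finset.mem_image] at hy
  obtain ⟨x, hx, rfl⟩ := hy
  rw [Finset.mem_filter]
  exact h x hx

theorem not_mem_map {S : Finset G} {g x : G} (h : x ∉ S.map (addRightEmbedding g)) :
    x - g ∉ S := by
  intro hx
  apply h
  rw [Finset.mem_map]
  exact ⟨x - g, hx, by simp⟩

theorem bound_P (Φ : Finset G) (g : G) :
    (PP Φ \ (PP Φ).map (addRightEmbedding g)).card ≤ bd Φ g + bd Φ (2 • g) + bd Φ (4 • g) := by
  set S := PP Φ \ (PP Φ).map (addRightEmbedding g) with hS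
  have h1 : S ⊆ (S.filter (fun x => x - g ∉ Φ) ∪ S.filter (fun x => 2 • x - 2 • g ∉ Φ)) ∪
      S.filter (fun x => 4 • x - 4 • g ∉ Φ) := by
    intro x hx
    have hx' := hx
    rw [hS, Finset.mem_sdiff] at hx'
    have h2 := not_mem_map hx'.2
    rw [mem_PP, smul_sub, smul_sub] at h2
    simp only [Finset.mem_union, Finset.mem_filter]
    tauto
  have hm : ∀ x ∈ S, x ∈ Φ ∧ 2 • x ∈ Φ ∧ 4 • x ∈ Φ := by
    intro x hx
    rw [hS, Finset.mem_sdiff] at hx
    exact mem_PP.1 hx.1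
  have h2 := (Finset.card_le_card h1).trans (Finset.card_union_le _ _)
  have h3 := Finset.card_union_le (S.filter (fun x => x - g ∉ Φ))
    (S.filter (fun x => 2 • x - 2 • g ∉ Φ))
  have h4 : (S.filter (fun x => x - g ∉ Φ)).card ≤ bd Φ g := by
    unfold bd
    apply Finset.card_le_card
    intro x hx
    rw [Finset.mem_filter] at hx ⊢
    exact ⟨(hm x hx.1).1, hx.2⟩
  have h5 := pull_two Φ (2 • g) (S.filter (fun x => 2 • x - 2 • g ∉ Φ)) (by
    intro x hx
    rw [Finset.mem_filter] at hx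
    exact ⟨(hm x hx.1).2.1, hx.2⟩)
  have h6 := pull_four Φ (4 • g) (S.filter (fun x => 4 • x - 4 • g ∉ Φ)) (by
    intro x hx
    rw [Finset.mem_filter] at hx
    exact ⟨(hm x hx.1).2.2, hx.2⟩)
  omega

theorem bound_Q (Φ : Finset G) (g : G) :
    (QQ Φ \ (QQ Φ).map (addRightEmbedding g)).card ≤ bd Φ g + bd Φ (2 • g) + bd Φ (-(4 • g)) := by
  set S := QQ Φ \ (QQ Φ).map (addRightEmbedding g) with hS
  have h1 : S ⊆ (S.filter (fun x => x - g ∉ Φ) ∪ S.filter (fun x => 2 • x - 2 • g ∉ Φ)) ∪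
      S.filter (fun x => 4 • x - 4 • g ∈ Φ) := by
    intro x hx
    have hx' := hx
    rw [hS, Finset.mem_sdiff] at hx'
    have h2 := not_mem_map hx'.2
    rw [mem_QQ, smul_sub, smul_sub] at h2
    simp only [Finset.mem_union, Finset.mem_filter]
    tauto
  have hm : ∀ x ∈ S, x ∈ Φ ∧ 2 • x ∈ Φ ∧ 4 • x ∉ Φ := by
    intro x hx
    rw [hS, Finset.mem_sdiff] at hx
    exact mem_QQ.1 hx.1
  have h2 := (Finset.card_le_card h1).trans (Finset.card_union_le _ _)
  have h3 := Finset.card_union_le (S.filter (fun x => x - g ∉ Φ))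
    (S.filter (fun x => 2 • x - 2 • g ∉ Φ))
  have h4 : (S.filter (fun x => x - g ∉ Φ)).card ≤ bd Φ g := by
    unfold bd
    apply Finset.card_le_card
    intro x hx
    rw [Finset.mem_filter] at hx ⊢
    exact ⟨(hm x hx.1).1, hx.2⟩
  have h5 := pull_two Φ (2 • g) (S.filter (fun x => 2 • x - 2 • g ∉ Φ)) (by
    intro x hx
    rw [Finset.mem_filter] at hx
    exact ⟨(hm x hx.1).2.1, hx.2⟩)
  have h6 : (S.filter (fun x => 4 • x - 4 • g ∈ Φ)).card ≤ bd Φ (-(4 • g)) := by
    unfold bd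
    have hinj : Function.Injective (fun x : G => 4 • x - 4 • g) := by
      intro x y h
      exact four_inj (sub_left_injective h)
    rw [← Finset.card_image_of_injective (S.filter (fun x => 4 • x - 4 • g ∈ Φ)) hinj]
    apply Finset.card_le_card
    intro y hy
    rw [Finset.mem_image] at hy
    obtain ⟨x, hx, rfl⟩ := hy
    rw [Finset.mem_filter] at hx ⊢
    refine ⟨hx.2, ?_⟩
    rw [sub_neg_eq_add, sub_add_cancel]
    exact (hm x hx.1).2.2
  omega

theorem bd_tendsto (Φ : ℕ → Finset G) (hne : ∀ N, (Φ N).Nonempty) (hF : IsFolner Φ) (g : G) :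
    Tendsto (fun N => (bd (Φ N) g : ℝ) / (Φ N).card) atTop (𝓝 0) := by
  have h1 := (hF g).const_sub 1
  rw [sub_self] at h1
  refine h1.congr ?_
  intro N
  have hc : (0 : ℝ) < (Φ N).card := by exact_mod_cast (hne N).card_pos
  have h2 : (((Φ N).filter (fun x => x - g ∈ Φ N)).card : ℝ) + (bd (Φ N) g : ℝ) = (Φ N).card := by
    unfold bd
    exact_mod_cast Finset.card_filter_add_card_filter_not (fun x => x - g ∈ Φ N)
  have h3 : ∀ d : DecidablePred (fun x => x - g ∈ Φ N),
      ((Φ N).card : ℝ) - ((@Finset.filter G (fun x => x - g ∈ Φ N) d (Φ N)).card : ℝ) =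
        (bd (Φ N) g : ℝ) := by
    intro d
    have h4 : ∀ d' : DecidablePred (fun x => x - g ∈ Φ N),
        ((@Finset.filter G (fun x => x - g ∈ Φ N) d' (Φ N)).card : ℝ) + (bd (Φ N) g : ℝ) =
          (Φ N).card →
        ((Φ N).card : ℝ) - ((@Finset.filter G (fun x => x - g ∈ Φ N) d (Φ N)).card : ℝ) =
          (bd (Φ N) g : ℝ) := by
      intro d' h5
      rw [card_inst (Φ N) (fun x => x - g ∈ Φ N) d d']
      linarith
    exact h4 _ h2
  rw [eq_div_iff hc.ne', sub_mul, div_mul_cancel₀ _ hc.ne', one_mul]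
  exact h3 _

/-- the case of nonempty sets -/
theorem fol_nonempty (hfun : SFun) (A : Set G)
    (hA : ∀ m : (G → ℝ) → ℝ, IsMean m →
      m (chi A) + m (chi {x | 2 • x ∈ A}) + m (chi {x | 4 • x ∈ A}) ≤ 1)
    (Φ : ℕ → Finset G) (hne : ∀ N, (Φ N).Nonempty) (hF : IsFolner Φ) :
    udens Φ A ≤ 1 - 2 / 3 * dratio Φ := by
  have hsub : ∀ (X : Finset G → Finset G) (k1 k2 k3 : G → G),
      (∀ (Ψ : Finset G) (g : G), (X Ψ \ (X Ψ).map (addRightEmbedding g)).card ≤
        bd Ψ (k1 g) + bd Ψ (k2 g) + bd Ψ (k3 g)) → ∀ g : G,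
      Tendsto (fun N => ((X (Φ N) \ (X (Φ N)).map (addRightEmbedding g)).card : ℝ) / (Φ N).card)
        atTop (𝓝 0) := by
    intro X k1 k2 k3 h g
    have h1 := ((bd_tendsto Φ hne hF (k1 g)).add (bd_tendsto Φ hne hF (k2 g))).add
      (bd_tendsto Φ hne hF (k3 g))
    rw [add_zero, add_zero] at h1
    refine squeeze_zero (fun N => by positivity) ?_ h1
    intro N
    rw [← add_div, ← add_div]
    apply div_le_div_of_nonneg_right _ (by positivity)
    exact_mod_cast h (Φ N) g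
  have hP := hfun A hA Φ (fun N => PP (Φ N)) hne (fun N => Finset.filter_subset _ _)
    (hsub PP id (fun g => 2 • g) (fun g => 4 • g) bound_P)
  have hQ := hfun A hA Φ (fun N => QQ (Φ N)) hne (fun N => Finset.filter_subset _ _)
    (hsub QQ id (fun g => 2 • g) (fun g => -(4 • g)) bound_Q)
  set d := dratio Φ with hd
  -- limits
  apply le_of_forall_pos_le_add
  intro δ hδ
  set ε := δ / 6 with hε
  have hε0 : 0 < ε := by positivity
  have hev : ∀ᶠ N in atTop, d - δ / 2 < (((Φ N).filter (fun x => 2 • x ∈ Φ N)).card : ℝ) /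
      (Φ N).card := by
    have hdr : dratio Φ = liminf (fun N => (((Φ N).filter (fun x => 2 • x ∈ Φ N)).card : ℝ) /
        (Φ N).card) atTop := by
      unfold dratio
      congr 1
      funext N
      exact congrArg (fun n : ℕ => (n : ℝ) / (Φ N).card) (card_inst _ _ _ _)
    apply eventually_lt_of_lt_liminf
    · rw [← hdr, ← hd]
      linarith
    · exact isBoundedUnder_of ⟨0, fun N => by positivity⟩
  unfold udens
  apply limsup_le_of_le
  · exact isCoboundedUnder_le_of_le atTop (x := 0) (fun N => by positivity)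
  · filter_upwards [hP ε hε0, hQ ε hε0, hev] with N h1 h2 h3
    have hc : (0 : ℝ) < (Φ N).card := by exact_mod_cast (hne N).card_pos
    have h4 := count (Φ N) A ε hε0.le h1 h2
    have h5 : (((Φ N).filter (fun x => x ∈ A)).card : ℝ) = ∑ x ∈ Φ N, chi A x := by
      unfold chi
      rw [Finset.sum_ite, Finset.sum_const_zero, add_zero, Finset.sum_const, nsmul_eq_mul, mul_one]
    rw [h5, div_le_iff₀ hc]
    rw [lt_div_iff₀ hc] at h3
    have h6 : (1 - 2 / 3 * d + δ) * ((Φ N).card : ℝ) = (Φ N).card -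
        2 / 3 * ((d - δ / 2) * (Φ N).card) + (2 / 3) * δ * (Φ N).card := by ring
    have h7 : 2 * ε * ((Φ N).card : ℝ) = (1 / 3) * δ * (Φ N).card := by
      rw [hε]
      ring
    rw [h6]
    have h8 : 0 ≤ δ * ((Φ N).card : ℝ) := by positivity
    linarith

theorem tFol : SFun → SFol := by
  intro hfun A hA Φ hF
  set Φ' : ℕ → Finset G := fun N => if (Φ N).Nonempty then Φ N else {0} with hΦ'
  have hne : ∀ N, (Φ' N).Nonempty := by
    intro N
    simp only [hΦ']
    split_ifs with h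
    · exact h
    · exact Finset.singleton_nonempty 0
  have hev : ∀ᶠ N in atTop, Φ' N = Φ N := by
    have h1 := (hF 0).eventually (lt_mem_nhds (show (1 / 2 : ℝ) < 1 by norm_num))
    filter_upwards [h1] with N hN
    have h2 : (Φ N).Nonempty := by
      by_contra h
      rw [Finset.not_nonempty_iff_eq_empty] at h
      rw [h] at hN
      simp at hN
      linarith
    simp only [hΦ']
    rw [if_pos h2]
  have hF' : IsFolner Φ' := by
    intro g
    refine (hF g).congr' ?_
    filter_upwards [hev] with N hN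
    rw [hN]
  have h1 := fol_nonempty hfun A hA Φ' hne hF'
  have h2 : udens Φ' A = udens Φ A := by
    unfold udens
    apply limsup_congr
    filter_upwards [hev] with N hN
    rw [hN]
  have h3 : dratio Φ' = dratio Φ := by
    unfold dratio
    apply liminf_congr
    filter_upwards [hev] with N hN
    rw [hN]
  rw [h2, h3] at h1
  exact h1

end

end Pool.Agent.Q238.BB
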